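import Pool.Agent.H208.Cur.All

set_option autoImplicit false

/-!
# The size of the global curve attractor of a rational Thurston map is bounded in terms of the
number of postcritical points and the degree
-/

noncomputable section

namespace Pool.Agent.Results.MP_5e4b6b_an.BoundedCurveAttractor

open Pool.Agent.H208.Cur

/-- There is a function `B : ℕ → ℕ → ℕ` such that, for every rational Thurston map `F` of degree `d`
whose pullback relation on curves has a finite global attractor, there is a least finite global
attractor, and it has at most `B |P_F| d` elements. Lattès maps are included. -/
theorem result : ∃ B : ℕ → ℕ → ℕ, ∀ (d : ℕ) (F : Sph → Sph), IsRationalThurston d F →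
    (∃ A, IsGlobalAttractor F A) →
    ∃ A, IsLeast {A | IsGlobalAttractor F A} A ∧ A.ncard ≤ B (post F).ncard d :=
  main steps

end Pool.Agent.Results.MP_5e4b6b_an.BoundedCurveAttractor
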